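import Pool.Agent.EventualStability.PowerMaps
import Pool.Agent.EventualStability.QuadExample

/-!
# MP_e85eb4_nt, Q2: both parts have a negative answer

(a) `κ(2, ℚ) = 3` is not admissible: for `f = x^2 - 119/48` and `α = 13/4` (wandering, without
rational preimage) the polynomial `f^3(x) - α` is a product of four quadratic polynomials.
(b) No `κ` depends only on `d` and `[K : ℚ]`.
-/

namespace Pool.Agent.Results.MP_e85eb4_nt.QTwoNegative

open Pool.Agent.EventualStability

theorem result :
    (¬ IsUniformBound ℚ 2 3) ∧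
    ¬ ∃ κ : ℕ → ℕ → ℕ, ∀ (d : ℕ) (K : Type) [Field K] [NumberField K], 2 ≤ d →
      IsUniformBound K d (κ d (Module.finrank ℚ K)) := by
  refine ⟨quadPoly_not_isUniformBound, ?_⟩
  rintro ⟨κ, hκ⟩
  exact not_isUniformBound ℚ 6 (by norm_num) (by
    rw [isPrimePow_iff_unique_prime_dvd]
    rintro ⟨r, -, hr⟩
    have h2 := hr 2 ⟨Nat.prime_two, by norm_num⟩
    have h3 := hr 3 ⟨Nat.prime_three, by norm_num⟩
    omega) _ (hκ 6 ℚ (by norm_num))

end Pool.Agent.Results.MP_e85eb4_nt.QTwoNegative
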