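import Pool.Agent.EventualStability.PowerMaps

/-!
# MP_e85eb4_nt, Q1: the uniform bound fails

For every number field `K` and every degree `d ≥ 2` that is not a prime power (for instance
`d = 6`, `K = ℚ`) no constant `κ(d, K)` exists.  The maps used are `f = x^d`, with
`α = b^(p^k)`, where `p ≠ q` are primes dividing `d` and `b ∈ K` is not a `q`-th power.
-/

namespace Pool.Agent.Results.MP_e85eb4_nt.UnboundedComposite

open Pool.Agent.EventualStability

theorem result (K : Type*) [Field K] [NumberField K] (d : ℕ) (hd : 2 ≤ d)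
    (hpp : ¬ IsPrimePow d) : ¬ ∃ κ : ℕ, IsUniformBound K d κ := by
  rintro ⟨κ, hκ⟩
  exact not_isUniformBound K d hd hpp κ hκ

end Pool.Agent.Results.MP_e85eb4_nt.UnboundedComposite
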